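import Pool.Agent.H20.LIM.Targets

/-! EXF: approximation of nice periodic functions by exponential polynomials. -/

set_option autoImplicit false

open Complex MeasureTheory Set Filter Topology Metric

namespace Pool.Agent.H49.LIM

open Pool.Agent.H20.LIM Pool.Agent.H23.GLM Pool.Agent.H23.DZ

theorem ae_ne {g : ℂ → ℂ} (hg : Differentiable ℂ g) {x : ℂ} (hx : g x ≠ 0) :
    ∀ᵐ z : ℂ, g z ≠ 0 := by
  have h1 : AnalyticOnNhd ℂ g univ := fun z _ => hg.analyticAt z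
  have h2 := h1.preimage_zero_mem_codiscrete hx
  have h3 := ae_restrict_le_codiscreteWithin (μ := (volume : Measure ℂ)) MeasurableSet.univ h2
  rw [Measure.restrict_univ] at h3
  exact h3

theorem norm_exp_neg (θ : ℝ) (z : ℂ) : ‖cexp (-(θ * z))‖ = Real.exp (-(θ * z.re)) := by
  rw [Complex.norm_exp]
  simp

theorem poly_diff (Q : Polynomial ℂ) (θ : ℝ) :
    Differentiable ℂ fun z : ℂ => Q.eval (cexp (-(θ * z))) := by
  have h1 : Differentiable ℂ fun z : ℂ => cexp (-(θ * z)) := by fun_prop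
  exact Q.differentiable.comp h1

theorem poly_le (Q : Polynomial ℂ) {Y : ℂ} {y : ℝ} (hY : ‖Y‖ ≤ y) :
    ‖Q.eval Y‖ ≤ ∑ k ∈ Finset.range (Q.natDegree + 1), ‖Q.coeff k‖ * y ^ k := by
  rw [Polynomial.eval_eq_sum_range]
  refine (norm_sum_le _ _).trans (Finset.sum_le_sum fun k _ => ?_)
  rw [norm_mul, norm_pow]
  gcongr

theorem poly_growth (Q : Polynomial ℂ) (θ : ℝ) (hθ : 0 < θ) :
    ∃ A B : ℝ, ∀ z : ℂ, ‖Q.eval (cexp (-(θ * z)))‖ ≤ Real.exp (A + B * |z.re|) := by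
  refine ⟨∑ k ∈ Finset.range (Q.natDegree + 1), ‖Q.coeff k‖, θ * Q.natDegree, fun z => ?_⟩
  have h1 : ‖cexp (-(θ * z))‖ ≤ Real.exp (θ * |z.re|) := by
    rw [norm_exp_neg]
    refine Real.exp_le_exp.2 ?_
    have := neg_abs_le z.re
    nlinarith
  refine (poly_le Q h1).trans ?_
  rw [Real.exp_add]
  have h2 : ∑ k ∈ Finset.range (Q.natDegree + 1), ‖Q.coeff k‖ * Real.exp (θ * |z.re|) ^ k ≤
      ∑ k ∈ Finset.range (Q.natDegree + 1), ‖Q.coeff k‖ *
        Real.exp (θ * Q.natDegree * |z.re|) := by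
    refine Finset.sum_le_sum fun k hk => ?_
    have h3 : k ≤ Q.natDegree := Nat.lt_succ_iff.1 (Finset.mem_range.1 hk)
    refine mul_le_mul_of_nonneg_left ?_ (norm_nonneg _)
    rw [← Real.exp_nat_mul]
    refine Real.exp_le_exp.2 ?_
    have h4 : (k : ℝ) ≤ Q.natDegree := by exact_mod_cast h3
    have h5 : 0 ≤ θ * |z.re| := by positivity
    nlinarith
  refine h2.trans ?_
  rw [← Finset.sum_mul]
  refine mul_le_mul_of_nonneg_right ?_ (Real.exp_pos _).le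
  linarith [Real.add_one_le_exp (∑ k ∈ Finset.range (Q.natDegree + 1), ‖Q.coeff k‖)]

theorem poly_right (Q : Polynomial ℂ) (θ : ℝ) (hθ : 0 < θ) (x₀ : ℝ) :
    ∃ B : ℝ, ∀ z : ℂ, x₀ ≤ z.re → ‖Q.eval (cexp (-(θ * z)))‖ ≤ B := by
  refine ⟨_, fun z hz => poly_le Q (y := Real.exp (-(θ * x₀))) ?_⟩
  rw [norm_exp_neg]
  refine Real.exp_le_exp.2 ?_
  nlinarith

theorem L1_div {R Λ A : ℝ} {f : ℂ → ℝ} (hΛ : 0 < Λ) (h : L1 R f ≤ ENNReal.ofReal (A * Λ)) :
    L1 R (fun z => f z / Λ) ≤ ENNReal.ofReal A := by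
  unfold L1 at *
  have h1 : ∀ z, ‖f z / Λ‖ₑ = ‖f z‖ₑ * ENNReal.ofReal Λ⁻¹ := by
    intro z
    rw [div_eq_mul_inv, enorm_mul, Real.enorm_of_nonneg (inv_pos.2 hΛ).le]
  simp only [h1]
  rw [lintegral_mul_const' _ _ ENNReal.ofReal_ne_top]
  refine (mul_le_mul_left h _).trans ?_
  rw [← ENNReal.ofReal_mul' (inv_pos.2 hΛ).le]
  refine ENNReal.ofReal_le_ofReal ?_
  field_simp
  exact le_rfl

theorem pf_exf (hDISC : T_DISC) (hSYM : T_SYM) (hCOR : T_COR) : T_EXF := by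
  intro q P V hP hV R δ hR hδ
  have hθ : 0 < 2 * Real.pi / P := by positivity
  obtain ⟨θ, hθe⟩ : ∃ θ : ℝ, θ = 2 * Real.pi / P := ⟨_, rfl⟩
  rw [← hθe] at hθ ⊢
  obtain ⟨C, hC, hcor⟩ := hCOR R hR
  obtain ⟨δ', hδ', hδ'1, hδ'2⟩ : ∃ δ' : ℝ, 0 < δ' ∧ δ' ≤ 1 / 8 ∧ (1 + C) * δ' ≤ δ := by
    refine ⟨min (δ / (1 + C)) (1 / 8), by positivity, min_le_right _ _, ?_⟩
    calc (1 + C) * min (δ / (1 + C)) (1 / 8) ≤ (1 + C) * (δ / (1 + C)) := by
          gcongr
          exact min_le_left _ _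
      _ = δ := by field_simp
  have hδ'δ : δ' ≤ δ := by nlinarith
  obtain ⟨Λa, ha⟩ := hDISC q P V hP hV R δ' hR hδ'
  rw [← hθe] at ha
  obtain ⟨Λb, hb⟩ := hcor θ δ' hθ hδ' hδ'1
  refine ⟨max (max Λa Λb) 1, fun Λ hΛ => ?_⟩
  have hΛ1 : 1 ≤ Λ := (le_max_right _ _).trans hΛ
  have hΛ0 : 0 < Λ := by linarith
  obtain ⟨n, ζ, σ, hσ, hL, hr⟩ := ha Λ (((le_max_left _ _).trans (le_max_left _ _)).trans hΛ)
  obtain ⟨⟨Pp, hP0, hPe⟩, ε, hε, hfe⟩ := hSYM θ n ζ σ hσ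
  obtain ⟨nH, H, -, hHf, hH1, hHb, hHL⟩ := hb Λ
    (((le_max_right _ _).trans (le_max_left _ _)).trans hΛ) Pp hP0 (by
      intro z hz
      rw [hPe]
      exact hr z hz)
  refine ⟨n + nH, fun z => (Pp * H).eval (cexp (-(θ * z))), poly_diff _ _, poly_growth _ _ hθ,
    poly_right _ _ hθ, ⟨ε, hε, ?_⟩, ?_, ?_, ?_⟩
  · intro z
    simp only [Polynomial.eval_mul]
    rw [hPe, hHf, hfe z, hPe, map_mul]
    have e1 : cexp (-((θ * (n + nH : ℕ) : ℝ) * z)) = cexp (-(θ * n * z)) * cexp (-(θ * nH * z)) := by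
      rw [← Complex.exp_add]
      congr 1
      push_cast
      ring
    rw [e1]
    ring
  · have h11 : Pp.eval (cexp (-(θ * 1))) * H.eval (cexp (-(θ * 1))) ≠ 0 := by
      intro h0
      have h1 := hH1 1 (by simp)
      rw [h0] at h1
      norm_num at h1
    have hne1 := ae_ne (poly_diff Pp θ) (x := 1) (left_ne_zero_of_mul h11)
    have hne2 := ae_ne (poly_diff H θ) (x := 1) (right_ne_zero_of_mul h11)
    have hLH := L1_div hΛ0 hHL
    have h2 : L1 R (fun z => Real.log ‖(Pp * H).eval (cexp (-(θ * z)))‖ / Λ -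
        (V z - q / 2 * z.re)) ≤
        L1 R (fun z => Real.log ‖∏ j, (1 - cexp (-(θ * (z - ζ j))))‖ / Λ -
          (V z - q / 2 * z.re)) +
        L1 R (fun z => Real.log ‖H.eval (cexp (-(θ * z)))‖ / Λ) := by
      unfold L1
      rw [← lintegral_add_right]
      · refine lintegral_mono_ae ?_
        filter_upwards [ae_restrict_of_ae hne1, ae_restrict_of_ae hne2] with z h1 h2
        have h3 : ∀ a b c : ℝ, (a + b) / Λ - c = (a / Λ - c) + b / Λ := fun a b c => by ring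
        rw [Polynomial.eval_mul, norm_mul, Real.log_mul (norm_ne_zero_iff.2 h1)
          (norm_ne_zero_iff.2 h2), h3, hPe]
        exact enorm_add_le _ _
      · have h4 : Measurable fun z : ℂ => H.eval (cexp (-(θ * z))) :=
          (poly_diff H θ).continuous.measurable
        exact ((Real.measurable_log.comp h4.norm).div_const Λ).enorm
    refine h2.trans ((add_le_add hL hLH).trans ?_)
    rw [← ENNReal.ofReal_add hδ'.le (by positivity)]
    refine ENNReal.ofReal_le_ofReal ?_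
    linarith
  · intro z hz
    obtain ⟨h1, h2⟩ := hr z (by linarith)
    have h3 : ‖∏ j, (1 - cexp (-(θ * (z - ζ j))))‖ ≤ Real.exp (δ' * Λ) := by
      rw [← Real.log_le_iff_le_exp (norm_pos_iff.2 h1)]
      exact (abs_le.1 h2).2
    have h4 := hHb z (by linarith)
    show ‖(Pp * H).eval (cexp (-(θ * z)))‖ ≤ _
    rw [Polynomial.eval_mul, norm_mul, hPe]
    calc _ ≤ Real.exp (δ' * Λ) * Real.exp (C * δ' * Λ) := by gcongr
      _ = Real.exp ((1 + C) * δ' * Λ) := by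
        rw [← Real.exp_add]
        congr 1
        ring
      _ ≤ Real.exp (δ * Λ) := Real.exp_le_exp.2 (by gcongr)
  · intro z hz
    show ‖(Pp * H).eval (cexp (-(θ * z))) - 1‖ ≤ _
    rw [Polynomial.eval_mul]
    exact hH1 z hz

end Pool.Agent.H49.LIM
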